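import Pool.Agent.H57.EQ.Targets
import Pool.Agent.H68.GC.OLF0

/-!
# The cyclic polymorphism of the template
-/

set_option autoImplicit false
set_option linter.unusedVariables false

namespace Pool.Agent.H13.EQ

open Pool.Agent.H68.BP Pool.Agent.H58.SF Pool.Agent.H53.GC Pool.Agent.H53.NR Pool.Agent.H57.EQ
open Pool.Agent.H68.GC
open Function

/-- the majority -/
noncomputable def majF {p : ℕ} [NeZero p] (t : ZMod p → Bool) : Bool :=
  decide (p < 2 * (Finset.univ.filter (fun j => t j = true)).card)

theorem majF_shift {p : ℕ} [NeZero p] (t : ZMod p → Bool) :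
    majF (fun j => t (j + 1)) = majF t := by
  unfold majF
  have : (Finset.univ.filter (fun j : ZMod p => t (j + 1) = true)).card =
      (Finset.univ.filter (fun j : ZMod p => t j = true)).card := by
    refine Finset.card_bij (fun j _ => j + 1) ?_ ?_ ?_
    · intro a ha
      simpa using ha
    · intro a _ b _ h
      exact add_right_cancel h
    · intro b hb
      exact ⟨b - 1, by simpa using hb, by simp⟩
  rw [this]

theorem majF_not {p : ℕ} [NeZero p] (hp : Odd p) (t : ZMod p → Bool) :
    majF (fun j => !(t j)) = !(majF t) := by
  unfold majF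
  have h1 : (Finset.univ.filter (fun j : ZMod p => t j = true)).card +
      (Finset.univ.filter (fun j : ZMod p => (!(t j)) = true)).card = p := by
    have h := Finset.card_filter_add_card_filter_not (s := (Finset.univ : Finset (ZMod p)))
      (fun j => t j = true)
    rw [Finset.card_univ, ZMod.card] at h
    refine Eq.trans ?_ h
    congr 2
    ext j
    simp
  obtain ⟨m, hm⟩ := hp
  have h2 : (Finset.univ.filter (fun j : ZMod p => (fun j => !(t j)) j = true)).card =
      (Finset.univ.filter (fun j : ZMod p => (!(t j)) = true)).card := rfl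
  rw [← decide_not, decide_eq_decide]
  omega

theorem pf_CYP : T_CYP := by
  intro σ V X _ 𝔸 M c fr hS p f hp h2 hD G hG hGn
  classical
  have : NeZero p := ⟨hp.ne_zero⟩
  have hodd : Odd p := hp.odd_of_ne_two (by omega)
  obtain ⟨hcyc, hD2⟩ := hD
  let K : (ZMod p → Option (X × Bool)) → ZMod p → X × Bool :=
    fun z j => (G (fun i => z (i + j))).getD (fr, false)
  refine ⟨fun z => if ∀ i, z i = none then none
    else some (f (fun j => (K z j).1), majF (fun j => (K z j).2)), ?_, ?_⟩
  · -- polymorphism
    refine (poly_strOn _ _ _).2 ?_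
    intro s q hq
    have hG' := (poly_strOn _ _ _).1 hG
    have hx : ∀ j : ZMod p, ∃ (x : Fin (arP σ M s) → V) (T : V → V → Bool), relP 𝔸 M s x ∧
        Tour T ∧ ∀ a b, G (fun i => q (i + j) (a, b)) =
          (c (x a) (x b)).map (fun t => (t, T (x a) (x b))) :=
      fun j => hG' s (fun i => q (i + j)) (fun i => hq (i + j))
    choose x T hxR hT hxT using hx
    have hE : ∀ j a b, x j a = x j b ↔ ∀ i, q i (a, b) = none := by
      intro j a b
      have h1 : (∀ i, q (i + j) (a, b) = none) ↔ ∀ i, q i (a, b) = none := by
        constructor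
        · intro h i
          have := h (i - j)
          rwa [sub_add_cancel] at this
        · intro h i
          exact h _
      rw [← h1, ← hGn (fun i => q (i + j) (a, b)), hxT j a b, Option.map_eq_none_iff,
        hS.col.none_iff]
    -- the domain
    let W : Type := Set.range (x 0)
    let pr : Fin (arP σ M s) → W := fun a => ⟨x 0 a, a, rfl⟩
    let Gm : ZMod p → W → V := fun j w => x j (Classical.choose w.2)
    have hGm : ∀ j a, Gm j (pr a) = x j a := by
      intro j a
      have h1 : x 0 (Classical.choose (pr a).2) = x 0 a := Classical.choose_spec (pr a).2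
      exact (hE j _ _).2 ((hE 0 _ _).1 h1)
    have hpr : ∀ w : W, ∃ a, w = pr a := by
      rintro ⟨v, a, rfl⟩
      exact ⟨a, rfl⟩
    have hGi : ∀ j, Injective (Gm j) := by
      intro j w w' h
      obtain ⟨a, rfl⟩ := hpr w
      obtain ⟨b, rfl⟩ := hpr w'
      rw [hGm, hGm] at h
      exact Subtype.ext ((hE 0 _ _).2 ((hE j _ _).1 h))
    obtain ⟨ψ, hψi, hψC, hψc⟩ := hD2 W Gm hGi
    let T' : V → V → Bool := fun v v' =>
      if (∃ w, ψ w = v) ∧ (∃ w, ψ w = v') then
        majF (fun j => T j (extend ψ (Gm j) id v) (extend ψ (Gm j) id v'))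
      else decide (v < v')
    have hT' : ∀ w w', T' (ψ w) (ψ w') = majF (fun j => T j (Gm j w) (Gm j w')) := by
      intro w w'
      change (if _ then _ else _) = _
      rw [if_pos ⟨⟨w, rfl⟩, ⟨w', rfl⟩⟩]
      simp only [hψi.extend_apply]
    refine ⟨fun a => ψ (pr a), T', ?_, ?_, ?_⟩
    · cases s with
      | none => trivial
      | some l =>
        refine hψC l pr ?_
        intro i
        simp only [hGm]
        exact hxR i
    · intro v v' hne
      by_cases h : (∃ w, ψ w = v) ∧ (∃ w, ψ w = v')
      · obtain ⟨⟨w, rfl⟩, ⟨w', rfl⟩⟩ := h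
        rw [hT', hT', ← majF_not hodd]
        congr 1
        funext j
        exact hT j _ _ (fun h => hne (by rw [hGi j h]))
      · have h' : ¬ ((∃ w, ψ w = v') ∧ (∃ w, ψ w = v)) := fun h' => h ⟨h'.2, h'.1⟩
        change (if _ then _ else _) = !(if _ then _ else _)
        rw [if_neg h, if_neg h', ← decide_not, decide_eq_decide, not_lt]
        exact ⟨fun h => h.le, fun h => lt_of_le_of_ne h (Ne.symm hne)⟩
    · intro a b
      change (if ∀ i, q i (a, b) = none then none else some _) = _
      by_cases h : ∀ i, q i (a, b) = none
      · have : pr a = pr b := Subtype.ext ((hE 0 a b).2 h)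
        have h0 : c (ψ (pr a)) (ψ (pr b)) = none := (hS.col.none_iff _ _).2 (by rw [this])
        rw [if_pos h]
        change none = Option.map _ (c (ψ (pr a)) (ψ (pr b)))
        rw [h0]
        rfl
      · rw [if_neg h]
        have hc : ∀ j, ∃ t, c (x j a) (x j b) = some t := by
          intro j
          rw [← Option.ne_none_iff_exists']
          intro h'
          exact h ((hE j a b).1 ((hS.col.none_iff _ _).1 h'))
        choose t ht using hc
        have hK : ∀ j, K (fun i => q i (a, b)) j = (t j, T j (x j a) (x j b)) := by
          intro j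
          change (G (fun i => q (i + j) (a, b))).getD (fr, false) = _
          rw [hxT j a b, ht j]
          rfl
        have hc' : c (ψ (pr a)) (ψ (pr b)) = some (f t) := by
          refine hψc _ _ t ?_
          intro i
          rw [hGm, hGm]
          exact ht i
        change _ = Option.map (fun t => (t, T' (ψ (pr a)) (ψ (pr b)))) (c (ψ (pr a)) (ψ (pr b)))
        rw [hc', hT']
        simp only [hK, hGm, Option.map_some]
  · -- cyclic
    intro z
    have hK : ∀ j, K (fun i => z (i + 1)) j = K z (j + 1) := by
      intro j
      change (G (fun i => z (i + j + 1))).getD (fr, false) =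
        (G (fun i => z (i + (j + 1)))).getD (fr, false)
      simp only [add_assoc]
    have h1 : (∀ i, z (i + 1) = none) ↔ ∀ i, z i = none := by
      constructor
      · intro h i
        have := h (i - 1)
        rwa [sub_add_cancel] at this
      · intro h i
        exact h _
    simp only [hK, h1]
    rw [hcyc (fun j => (K z j).1), majF_shift (fun j => (K z j).2)]

end Pool.Agent.H13.EQ
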