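import Pool.Agent.H38.EQ.Targets
import Pool.Agent.H14.AS.RDC
import Pool.Agent.H68.AS.SQB

/-!
Board eqr, row SQD: squarefull numbers in a dyadic interval.
-/

set_option autoImplicit false

open Finset

open Pool.Agent.H38.RB Pool.Agent.H38.PS Pool.Agent.H82.AS

namespace Pool.Agent.H13.EQ

theorem step_rpow {p : ℝ} (hp : 0 < p) (hp1 : p ≤ 1) (n : ℕ) :
    p⁻¹ * (n : ℝ) ^ p + ((n + 1 : ℕ) : ℝ) ^ (p - 1) ≤ p⁻¹ * ((n + 1 : ℕ) : ℝ) ^ p := by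
  have hn : (0 : ℝ) ≤ n := Nat.cast_nonneg n
  have hn1 : (0 : ℝ) < ((n + 1 : ℕ) : ℝ) := by positivity
  set x : ℝ := ((n + 1 : ℕ) : ℝ) with hx
  have hnx : (n : ℝ) = x * (1 + -(1 / x)) := by
    rw [hx]
    push_cast
    field_simp
    ring
  have hx1 : (1 : ℝ) ≤ x := by
    rw [hx]
    push_cast
    linarith
  have hs : (-1 : ℝ) ≤ -(1 / x) := by
    have : 1 / x ≤ 1 := (div_le_one hn1).2 hx1
    linarith
  have h1 := rpow_one_add_le_one_add_mul_self hs hp.le hp1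
  have h2 : (0 : ℝ) ≤ 1 + -(1 / x) := by linarith
  have h3 : (n : ℝ) ^ p ≤ x ^ p * (1 + p * -(1 / x)) := by
    rw [hnx, Real.mul_rpow hn1.le h2]
    exact mul_le_mul_of_nonneg_left h1 (Real.rpow_nonneg hn1.le _)
  have h4 : x ^ (p - 1) = x ^ p * (1 / x) := by
    rw [Real.rpow_sub hn1, Real.rpow_one]
    ring
  have h5 : p⁻¹ * (n : ℝ) ^ p ≤ p⁻¹ * (x ^ p * (1 + p * -(1 / x))) :=
    mul_le_mul_of_nonneg_left h3 (inv_nonneg.2 hp.le)
  have h6 : p⁻¹ * (x ^ p * (1 + p * -(1 / x))) = p⁻¹ * x ^ p - x ^ p * (1 / x) := by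
    field_simp
    ring
  rw [h4]
  linarith

theorem sum_rpow_le {p : ℝ} (hp : 0 < p) (hp1 : p ≤ 1) (N : ℕ) :
    ∑ r ∈ Icc 1 N, (r : ℝ) ^ (p - 1) ≤ p⁻¹ * (N : ℝ) ^ p := by
  induction N with
  | zero => simp [Real.zero_rpow hp.ne']
  | succ n ih =>
    rw [Finset.sum_Icc_succ_top (by omega)]
    have := step_rpow hp hp1 n
    linarith

theorem pf_SQD0 (hrdc : T_RDC) (hsqb : T_SQB) : Pool.Agent.H38.EQ.T_SQD := by
  classical
  intro n hn ε hε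
  obtain ⟨C, hC, hcard⟩ := hrdc ε hε
  have hn0 : (0 : ℝ) < n := by
    have : 0 < n := by omega
    exact_mod_cast this
  have hn1 : (1 : ℝ) ≤ n := by
    have : 1 ≤ n := by omega
    exact_mod_cast this
  obtain ⟨p, hpdef⟩ : ∃ p : ℝ, p = 1 / (n : ℝ) := ⟨_, rfl⟩
  have hp : 0 < p := by rw [hpdef]; positivity
  have hp1 : p ≤ 1 := by
    rw [hpdef]
    exact (div_le_one hn0).2 hn1
  refine ⟨2 * C * p⁻¹, by positivity, fun W F hW hF0 => ?_⟩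
  have hW0 : (0 : ℝ) < W := by linarith
  have hF : ∀ D ∈ F, Sqf D ∧ 1 ≤ D ∧ (D : ℝ) ≤ W := by
    intro D hD
    obtain ⟨h1, h2, h3⟩ := hF0 D hD
    refine ⟨h1, ?_, h3⟩
    rcases Nat.eq_zero_or_pos D with h0 | h0
    · rw [h0] at h2
      norm_num at h2
      linarith
    · exact h0
  have hlow : ∀ D ∈ F, W / 2 < (D : ℝ) := fun D hD => (hF0 D hD).2.1
  set R : ℕ := ⌊W ^ (1 / 2 : ℝ)⌋₊ with hR
  have hWh : (0 : ℝ) ≤ W ^ (1 / 2 : ℝ) := Real.rpow_nonneg hW0.le _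
  have hRle : (R : ℝ) ≤ W ^ (1 / 2 : ℝ) := Nat.floor_le hWh
  have hmaps : ∀ D ∈ F, pd D.primeFactors ∈ Icc 1 R := by
    intro D hD
    obtain ⟨h1, h2, h3⟩ := hF D hD
    have h4 := (hsqb D h2).2.2.2.2.2.2 h1
    rw [Finset.mem_Icc]
    constructor
    · unfold pd
      exact Nat.one_le_iff_ne_zero.2 (Finset.prod_ne_zero_iff.2 fun p hp =>
        (Nat.prime_of_mem_primeFactors hp).ne_zero)
    · rw [hR]
      refine Nat.le_floor ?_
      have h5 : ((pd D.primeFactors : ℕ) : ℝ) ^ 2 ≤ W := by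
        refine le_trans ?_ h3
        exact_mod_cast h4
      have h6 := Real.rpow_le_rpow (sq_nonneg _) h5 (by norm_num : (0 : ℝ) ≤ 1 / 2)
      rwa [← Real.sqrt_eq_rpow, Real.sqrt_sq (Nat.cast_nonneg _)] at h6
  have hfib : ∀ r ∈ Icc 1 R, ((F.filter fun D => pd D.primeFactors = r).card : ℝ) ≤ C * W ^ ε := by
    intro r _
    refine hcard r W _ hW fun n hn => ?_
    rw [Finset.mem_filter] at hn
    exact ⟨(hF n hn.1).2.1, (hF n hn.1).2.2, hn.2⟩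
  have hCW : 0 ≤ C * W ^ ε := mul_nonneg hC.le (Real.rpow_nonneg hW0.le _)
  have hterm : ∀ D ∈ F, ex D ^ (1 - p) / D ≤
      ((pd D.primeFactors : ℕ) : ℝ) ^ (p - 1) * (W / 2) ^ (-p) := by
    intro D hD
    have hD1 : (0 : ℝ) < D := by
      have := (hF D hD).2.1
      exact_mod_cast this
    have hr1 : (0 : ℝ) < ((pd D.primeFactors : ℕ) : ℝ) := by
      have := (Finset.mem_Icc.1 (hmaps D hD)).1
      exact_mod_cast this
    have h1 : ex D ^ (1 - p) / D = ((pd D.primeFactors : ℕ) : ℝ) ^ (p - 1) *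
        (D : ℝ) ^ (-p) := by
      unfold ex
      rw [Real.div_rpow hD1.le hr1.le, show (p - 1 : ℝ) = -(1 - p) by ring,
        Real.rpow_neg hr1.le, show (-p : ℝ) = (1 - p) - 1 by ring, Real.rpow_sub hD1 (1 - p) 1,
        Real.rpow_one]
      field_simp
    rw [h1]
    refine mul_le_mul_of_nonneg_left ?_ (Real.rpow_nonneg hr1.le _)
    exact Real.rpow_le_rpow_of_nonpos (by positivity) (hlow D hD).le (by linarith)
  have h1 : ∑ D ∈ F, ex D ^ (1 - p) / D ≤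
      ∑ D ∈ F, ((pd D.primeFactors : ℕ) : ℝ) ^ (p - 1) * (W / 2) ^ (-p) :=
    Finset.sum_le_sum hterm
  have h2 : ∑ D ∈ F, ((pd D.primeFactors : ℕ) : ℝ) ^ (p - 1) * (W / 2) ^ (-p) =
      ∑ r ∈ Icc 1 R, ∑ D ∈ F.filter (fun D => pd D.primeFactors = r),
        ((pd D.primeFactors : ℕ) : ℝ) ^ (p - 1) * (W / 2) ^ (-p) :=
    (Finset.sum_fiberwise_of_maps_to hmaps _).symm
  have h3 : ∑ r ∈ Icc 1 R, ∑ D ∈ F.filter (fun D => pd D.primeFactors = r),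
        ((pd D.primeFactors : ℕ) : ℝ) ^ (p - 1) * (W / 2) ^ (-p) ≤
      ∑ r ∈ Icc 1 R, (C * W ^ ε * (W / 2) ^ (-p)) * (r : ℝ) ^ (p - 1) := by
    refine Finset.sum_le_sum fun r hr => ?_
    have h4 : ∑ D ∈ F.filter (fun D => pd D.primeFactors = r),
        ((pd D.primeFactors : ℕ) : ℝ) ^ (p - 1) * (W / 2) ^ (-p) =
        ∑ D ∈ F.filter (fun D => pd D.primeFactors = r),
        (r : ℝ) ^ (p - 1) * (W / 2) ^ (-p) := by
      refine Finset.sum_congr rfl fun D hD => ?_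
      rw [(Finset.mem_filter.1 hD).2]
    rw [h4, Finset.sum_const, nsmul_eq_mul]
    have h5 : 0 ≤ (r : ℝ) ^ (p - 1) * (W / 2) ^ (-p) :=
      mul_nonneg (Real.rpow_nonneg (Nat.cast_nonneg _) _) (Real.rpow_nonneg (by positivity) _)
    calc ((F.filter fun D => pd D.primeFactors = r).card : ℝ) *
          ((r : ℝ) ^ (p - 1) * (W / 2) ^ (-p)) ≤
          (C * W ^ ε) * ((r : ℝ) ^ (p - 1) * (W / 2) ^ (-p)) :=
        mul_le_mul_of_nonneg_right (hfib r hr) h5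
      _ = _ := by ring
  rw [← Finset.mul_sum] at h3
  have h6 : ∑ r ∈ Icc 1 R, (r : ℝ) ^ (p - 1) ≤ p⁻¹ * W ^ (p / 2) := by
    refine (sum_rpow_le hp hp1 R).trans ?_
    have h7 := Real.rpow_le_rpow (Nat.cast_nonneg R) hRle hp.le
    rw [← Real.rpow_mul hW0.le] at h7
    have h8 : (1 / 2 : ℝ) * p = p / 2 := by ring
    rw [h8] at h7
    exact mul_le_mul_of_nonneg_left h7 (inv_nonneg.2 hp.le)
  have hpos : 0 ≤ C * W ^ ε * (W / 2) ^ (-p) :=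
    mul_nonneg hCW (Real.rpow_nonneg (by positivity) _)
  have h9 : (W / 2) ^ (-p) ≤ 2 * W ^ (-p) := by
    rw [Real.div_rpow hW0.le (by norm_num), Real.rpow_neg (by norm_num : (0 : ℝ) ≤ 2),
      div_inv_eq_mul, mul_comm]
    refine mul_le_mul_of_nonneg_right ?_ (Real.rpow_nonneg hW0.le _)
    calc (2 : ℝ) ^ p ≤ 2 ^ (1 : ℝ) :=
          Real.rpow_le_rpow_of_exponent_le (by norm_num) hp1
      _ = 2 := Real.rpow_one 2
  have hfin : ∑ D ∈ F, ex D ^ (1 - p) / D ≤ 2 * C * p⁻¹ * W ^ (-(p / 2) + ε) := by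
    calc ∑ D ∈ F, ex D ^ (1 - p) / D
        ≤ (C * W ^ ε * (W / 2) ^ (-p)) * ∑ r ∈ Icc 1 R, (r : ℝ) ^ (p - 1) := by
          linarith
      _ ≤ (C * W ^ ε * (W / 2) ^ (-p)) * (p⁻¹ * W ^ (p / 2)) :=
          mul_le_mul_of_nonneg_left h6 hpos
      _ ≤ (C * W ^ ε * (2 * W ^ (-p))) * (p⁻¹ * W ^ (p / 2)) := by
          refine mul_le_mul_of_nonneg_right ?_ (by positivity)
          exact mul_le_mul_of_nonneg_left h9 hCW
      _ = 2 * C * p⁻¹ * (W ^ ε * (W ^ (-p) * W ^ (p / 2))) := by ring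
      _ = 2 * C * p⁻¹ * W ^ (-(p / 2) + ε) := by
          rw [← Real.rpow_add hW0, ← Real.rpow_add hW0]
          congr 2
          ring
  have e1 : (1 - 1 / (n : ℝ)) = 1 - p := by rw [hpdef]
  have e2 : (-(1 / (2 * (n : ℝ))) + ε) = -(p / 2) + ε := by
    rw [hpdef]
    field_simp
  rw [e1, e2]
  exact hfin

theorem pf_SQD : Pool.Agent.H38.EQ.T_SQD :=
  pf_SQD0 Pool.Agent.H14.AS.pf_RDC Pool.Agent.H68.AS.pf_SQB

end Pool.Agent.H13.EQ
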